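import Pool.Agent.Helper36.CV.StmtsR

set_option autoImplicit false

namespace Pool.Agent.Helper36.CV

open Complex Filter Topology MeasureTheory Set Pointwise

/-- powers of a small number -/
lemma r10_pow {ε : ℝ} (h0 : 0 < ε) (h1 : ε ≤ 1 / 10 ^ 20) :
    ε ^ (-(21 / 20) : ℝ) ≤ 1 / ε ^ 3 ∧ 1000 ≤ 1 / ε ^ 4 ∧ ε * ε ^ (-(9 / 10) : ℝ) ≤ 1 / 100 ∧
    ε ^ (1 / 20 : ℝ) ≤ 1 / 2 ∧ ε ^ (103 / 100 : ℝ) ≤ ε ∧ ε ^ (103 / 100 : ℝ) ≤ ε ^ (102 / 100 : ℝ)
      := by
  have h2 : ε ≤ 1 := h1.trans (by norm_num)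
  refine ⟨?_, ?_, ?_, ?_, ?_, ?_⟩
  · have h3 : ε ^ (-(21 / 20) : ℝ) ≤ ε ^ (-3 : ℝ) :=
      Real.rpow_le_rpow_of_exponent_ge h0 h2 (by norm_num)
    have h4 : ε ^ (-3 : ℝ) = 1 / ε ^ 3 := by
      rw [Real.rpow_neg h0.le, one_div]
      norm_cast
    rw [← h4]
    exact h3
  · rw [le_div_iff₀ (by positivity)]
    have h5 : ε ^ 4 ≤ (1 / 10 ^ 20) ^ 4 := pow_le_pow_left₀ h0.le h1 4
    nlinarith
  · have h3 : ε * ε ^ (-(9 / 10) : ℝ) = ε ^ (1 / 10 : ℝ) := by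
      nth_rewrite 1 [← Real.rpow_one ε]
      rw [← Real.rpow_add h0]
      norm_num
    rw [h3]
    have h4 : ε ^ (1 / 10 : ℝ) ≤ (1 / 10 ^ 20 : ℝ) ^ (1 / 10 : ℝ) :=
      Real.rpow_le_rpow h0.le h1 (by norm_num)
    have h5 : (1 / 10 ^ 20 : ℝ) = (1 / 100) ^ (10 : ℝ) := by norm_num
    rw [h5, ← Real.rpow_mul (by norm_num)] at h4
    norm_num at h4
    norm_num
    exact h4
  · have h4 : ε ^ (1 / 20 : ℝ) ≤ (1 / 10 ^ 20 : ℝ) ^ (1 / 20 : ℝ) :=
      Real.rpow_le_rpow h0.le h1 (by norm_num)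
    have h5 : (1 / 10 ^ 20 : ℝ) = (1 / 10) ^ (20 : ℝ) := by norm_num
    rw [h5, ← Real.rpow_mul (by norm_num)] at h4
    norm_num at h4
    norm_num
    linarith
  · have h3 : ε ^ (103 / 100 : ℝ) ≤ ε ^ (1 : ℝ) :=
      Real.rpow_le_rpow_of_exponent_ge h0 h2 (by norm_num)
    rw [Real.rpow_one] at h3
    exact h3
  · exact Real.rpow_le_rpow_of_exponent_ge h0 h2 (by norm_num)

section gen

variable {Hm Hp : ℝ} {C : Set ℝ} {cd : CD Hm Hp C}

lemma r10_nn (hP2 : ST_P2) (hHm : 0 < Hm) (x ρ : ℝ) (V : Gap cd) : 0 ≤ nn x ρ V := by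
  unfold nn
  apply MeasureTheory.integral_nonneg
  intro t
  exact div_nonneg ((hP2 Hm Hp C cd hHm).1 t).1 (abs_nonneg _)

lemma r10_meets (V : Gap cd) (x d : ℝ) (hd : 0 ≤ d) : V.Meets x d ↔ V.dist x ≤ d := by
  unfold Gap.Meets Gap.dist
  rw [max_le_iff, max_le_iff]
  constructor
  · rintro ⟨h1, h2⟩
    exact ⟨hd, by linarith, by linarith⟩
  · rintro ⟨_, h1, h2⟩
    exact ⟨by linarith, by linarith⟩

/-- the case of a nearest violator on the left -/
lemma r10_left {cK K8 ε7 ε8 ε9 ε3 : ℝ}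
    (h7 : ∀ (ε Hm Hp : ℝ) (C : Set ℝ) (cd : CD Hm Hp C), Par ε Hm Hp → ε ≤ ε7 →
      ∀ (τ l r l0 r0 l1 r1 l2 r2 : ℝ) (VL VR : Gap cd),
      Pair cd ε cK τ l r l0 r0 l1 r1 l2 r2 VL VR →
      ∀ (D : ℝ) (V0 : Gap cd), NL cd ε ((l + r) / 2) (r - l) D V0 →
      D ≤ ε ^ (-(9 / 10) : ℝ) * (r - l) → D ≤ ε ^ (1 / 20 : ℝ) * V0.s)
    (h8 : ∀ (ε Hm Hp : ℝ) (C : Set ℝ) (cd : CD Hm Hp C), Par ε Hm Hp → ε ≤ ε8 →
      ∀ (τ l r l0 r0 l1 r1 l2 r2 : ℝ) (VL VR : Gap cd),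
      Pair cd ε cK τ l r l0 r0 l1 r1 l2 r2 VL VR →
      ∀ (D : ℝ) (V0 : Gap cd), NL cd ε ((l + r) / 2) (r - l) D V0 →
      D ≤ ε ^ (-(21 / 20) : ℝ) * (r - l) →
      ε ^ (-(9 / 10) : ℝ) * (r - l) ≤ D → ¬ Wit ε V0.a V0.b l r →
      ∃ α k2 : ℝ, QLaw cd ε K8 ((l + r) / 2) (r - l) α k2)
    (h9 : ∀ (ε Hm Hp : ℝ) (C : Set ℝ) (cd : CD Hm Hp C), Par ε Hm Hp → ε ≤ ε9 →
      ∀ (τ l r l0 r0 l1 r1 l2 r2 : ℝ) (VL VR : Gap cd),
      Pair cd ε cK τ l r l0 r0 l1 r1 l2 r2 VL VR →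
      ∀ α k2 : ℝ, QLaw cd ε K8 ((l + r) / 2) (r - l) α k2 →
      ∀ G : Gap cd, ¬ Wit ε G.a G.b l1 r1)
    (h3 : ∀ (ε Hm Hp : ℝ) (C : Set ℝ) (cd : CD Hm Hp C), Par ε Hm Hp → ε ≤ ε3 →
      ∀ (τ l r l0 r0 l1 r1 l2 r2 : ℝ) (VL VR : Gap cd),
      Pair cd ε cK τ l r l0 r0 l1 r1 l2 r2 VL VR →
      (∀ V : Gap cd, ¬ NV ε ((l + r) / 2) (r - l) V → 7 / 5 * (r - l) < V.dist ((l + r) / 2)))
    {ε : ℝ} (hpar : Par ε Hm Hp) (e7 : ε ≤ ε7) (e8 : ε ≤ ε8) (e9 : ε ≤ ε9) (e3 : ε ≤ ε3)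
    (e20 : ε ≤ 1 / 10 ^ 20) {τ l r l0 r0 l1 r1 l2 r2 : ℝ} {VL VR : Gap cd}
    (hp : Pair cd ε cK τ l r l0 r0 l1 r1 l2 r2 VL VR) (hS : PSt C ε l r) {D : ℝ} {V0 : Gap cd}
    (hN : NL cd ε ((l + r) / 2) (r - l) D V0) (hD : D ≤ ε ^ (-(21 / 20) : ℝ) * (r - l))
    (G : Gap cd) : ¬ Wit ε G.a G.b l1 r1 := by
  have hε : 0 < ε := hpar.1
  obtain ⟨-, -, p3, p4, -, -⟩ := r10_pow hε e20
  have hρ : 0 < r - l := by linarith [hp.kids.lt]
  have hw : ¬ Wit ε V0.a V0.b l r := hS V0.a V0.b ⟨V0.lt, V0.ha, V0.hb, V0.out⟩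
  rcases le_total D (ε ^ (-(9 / 10) : ℝ) * (r - l)) with hc | hc
  · exfalso
    apply hw
    have h1 := h7 ε Hm Hp C cd hpar e7 τ l r l0 r0 l1 r1 l2 r2 VL VR hp D V0 hN hc
    have h2 := h3 ε Hm Hp C cd hpar e3 τ l r l0 r0 l1 r1 l2 r2 VL VR hp V0 hN.viol
    have hdist : V0.dist ((l + r) / 2) = D := by
      unfold Gap.dist
      have := V0.lt
      have h3 := hN.left
      rw [hN.dD, max_eq_right (by linarith : V0.a - (l + r) / 2 ≤ (l + r) / 2 - V0.b)]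
      exact max_eq_right (by linarith)
    rw [hdist] at h2
    have hs : 0 < V0.s := by
      unfold Gap.s
      linarith [V0.lt]
    have h4 : D ≤ V0.s / 2 := by nlinarith
    have hsdef : V0.s = V0.b - V0.a := rfl
    have hDd := hN.dD
    right
    right
    have hcen : (l + r) / 2 - (V0.a + V0.b) / 2 = D + V0.s / 2 := by
      rw [hsdef, hDd]
      ring
    have hba : V0.b - V0.a = V0.s := rfl
    refine ⟨by rw [hba]; linarith, Or.inr ⟨?_, ?_⟩⟩
    · rw [hcen, hba, abs_of_pos (by linarith)]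
      linarith
    · rw [hcen, hba, abs_of_pos (by linarith)]
      set h := V0.s / 2 with hh
      have hh0 : 0 < h := by linarith
      have hD0 : 0 < D := by linarith
      have h5 : ε * D ≤ 1 / 100 * (r - l) := by
        have h6 : ε * D ≤ ε * (ε ^ (-(9 / 10) : ℝ) * (r - l)) :=
          mul_le_mul_of_nonneg_left hc hε.le
        have h7 : ε * (ε ^ (-(9 / 10) : ℝ) * (r - l)) = ε * ε ^ (-(9 / 10) : ℝ) * (r - l) := by
          ring
        rw [h7] at h6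
        exact h6.trans (mul_le_mul_of_nonneg_right p3 hρ.le)
      have h6 : (D + h) * ((D + h) ^ 2 - h ^ 2) ≤ 6 * D * h ^ 2 := by
        have : (D + h) ^ 2 - h ^ 2 = D * (D + 2 * h) := by ring
        rw [this]
        have h7 : (D + h) * (D * (D + 2 * h)) ≤ (2 * h) * (D * (3 * h)) := by
          apply mul_le_mul (by linarith) _ (by positivity) (by positivity)
          apply mul_le_mul_of_nonneg_left (by linarith) hD0.le
        linarith
      calc 8 * ε * (D + h) * ((D + h) ^ 2 - h ^ 2)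
          = 8 * ε * ((D + h) * ((D + h) ^ 2 - h ^ 2)) := by ring
        _ ≤ 8 * ε * (6 * D * h ^ 2) := by
            apply mul_le_mul_of_nonneg_left h6 (by positivity)
        _ = 48 * (ε * D) * h ^ 2 := by ring
        _ ≤ 48 * (1 / 100 * (r - l)) * h ^ 2 := by
            apply mul_le_mul_of_nonneg_right _ (by positivity)
            linarith
        _ ≤ (r - l) * h ^ 2 := by
            apply mul_le_mul_of_nonneg_right _ (by positivity)
            linarith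
  · obtain ⟨α, k2, hq⟩ := h8 ε Hm Hp C cd hpar e8 τ l r l0 r0 l1 r1 l2 r2 VL VR hp D V0 hN hD hc hw
    exact h9 ε Hm Hp C cd hpar e9 τ l r l0 r0 l1 r1 l2 r2 VL VR hp α k2 hq G

/-- reflection of a pair -/
lemma r10_refl {ε cK τ l r l0 r0 l1 r1 l2 r2 : ℝ} {ε0 : ℝ} (h0 : 0 < ε) (hε : ε ≤ ε0)
    (hlen : ∀ l r : ℝ, Kids ε cK τ l r l0 r0 l1 r1 l2 r2 → l0 < r0 ∧ l2 < r2)
    (hR0 : ∀ ε a b l r : ℝ, 0 < ε → ε ≤ ε0 → a < b → l < r →
      (Wit ε a b l r ↔ Wit ε (-b) (-a) (-r) (-l)))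
    {VL VR : Gap cd} (hp : Pair cd ε cK τ l r l0 r0 l1 r1 l2 r2 VL VR)
    {cd' : CD Hm Hp (-C)} (hN : ∀ x, Nf cd' x = 1 - Nf cd (-x)) (e : Gap cd ≃ Gap cd')
    (he : ∀ V : Gap cd, (e V).a = -V.b ∧ (e V).b = -V.a ∧ (e V).m = -V.m) :
    Pair cd' ε cK (-τ) (-r) (-l) (-r2) (-l2) (-r1) (-l1) (-r0) (-l0) (e VR) (e VL) := by
  have hk := hp.kids
  obtain ⟨hl0, hl2⟩ := hlen l r hk
  refine ⟨⟨?_, ?_, ?_, ?_, ?_, ?_, ?_, ?_⟩, ⟨?_, ?_⟩, ?_, ?_, ?_, ?_, ?_⟩
  · linarith [hk.lt]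
  · rcases hk.tt with h | h | h
    · right; right; rw [h]; norm_num
    · right; left; rw [h]; norm_num
    · left; rw [h]
  · rw [hk.e2]
  · rw [hk.e0]
  · have h1 := hk.n2
    have h2 : -l2 - -r2 - ε * (1 + 2 * ε * -τ) * (-l - -r) =
      (r2 - l2) - ε * (1 - 2 * ε * τ) * (r - l) := by ring
    have h3 : -l - -r = r - l := by ring
    rw [h2, h3]
    exact h1
  · have h1 := hk.n0
    have h2 : -l0 - -r0 - ε * (1 - 2 * ε * -τ) * (-l - -r) =
      (r0 - l0) - ε * (1 + 2 * ε * τ) * (r - l) := by ring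
    have h3 : -l - -r = r - l := by ring
    rw [h2, h3]
    exact h1
  · have h1 := hk.n1
    have h2 : -l1 - -r1 - 4 * ε ^ 2 * (-l - -r) = (r1 - l1) - 4 * ε ^ 2 * (r - l) := by ring
    have h3 : -l - -r = r - l := by ring
    rw [h2, h3]
    exact h1
  · have h1 := hk.c1
    have h2 : (-l1 + -r1) / 2 - (-l + -r) / 2 - 3 / 4 * -τ * ε * (-l - -r) =
      -((r1 + l1) / 2 - (r + l) / 2 - 3 / 4 * τ * ε * (r - l)) := by ring
    have h3 : -l - -r = r - l := by ring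
    rw [h2, h3, abs_neg]
    exact h1
  · intro t ht
    have h1 := hp.good.inn (-t) (by
      have h2 : -t - (l + r) / 2 = -(t - (-r + -l) / 2) := by ring
      have h3 : -l - -r = r - l := by ring
      rw [h2, abs_neg]
      rw [h3] at ht
      exact ht)
    rw [hN]
    constructor <;> linarith [h1.1, h1.2]
  · intro W hW
    obtain ⟨V, rfl⟩ := e.surjective W
    obtain ⟨e1, e2, e3⟩ := he V
    have h1 := hp.good.big V (by
      unfold Gap.Meets at hW ⊢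
      rw [e1, e2] at hW
      have h3 : -l - -r = r - l := by ring
      rw [h3] at hW
      constructor <;> linarith [hW.1, hW.2])
    have h2 : |(e V).mu| = |V.mu| := by
      unfold Gap.mu
      rw [e3]
      push_cast
      rw [mul_neg, abs_neg]
    rw [h2]
    exact h1
  · intro h
    exact hp.ne (e.injective h).symm
  · obtain ⟨e1, e2, e3⟩ := he VR
    rw [e1, e2]
    exact (hR0 ε VR.a VR.b l2 r2 h0 hε VR.lt hl2).mp hp.wR
  · obtain ⟨e1, e2, e3⟩ := he VL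
    rw [e1, e2]
    exact (hR0 ε VL.a VL.b l0 r0 h0 hε VL.lt hl0).mp hp.wL
  · obtain ⟨e1, e2, e3⟩ := he VR
    have h1 := hp.sR
    unfold Gap.s at h1 ⊢
    rw [e1, e2]
    linarith
  · obtain ⟨e1, e2, e3⟩ := he VL
    have h1 := hp.sL
    unfold Gap.s at h1 ⊢
    rw [e1, e2]
    linarith

end gen

theorem st_R10 (hP1 : ST_P1) (hP2 : ST_P2) (hQ11 : ST_Q11) (hMR : ST_MR) (hR0 : ST_R0)
    (hR3 : ST_R3) (hR7 : ST_R7) (hR8 : ST_R8) (hR9 : ST_R9) : ST_R10 := by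
  intro cK hcK
  obtain ⟨ε0, hε0, h0⟩ := hR0
  obtain ⟨ε3, hε3, h3⟩ := hR3 cK hcK
  obtain ⟨ε7, hε7, h7⟩ := hR7 cK hcK
  obtain ⟨K8, ε8, hK8, hε8, h8⟩ := hR8 cK hcK
  obtain ⟨ε9, hε9, h9⟩ := hR9 cK K8 hcK hK8
  obtain ⟨K11, ε11, hK11, hε11, h11⟩ := hQ11
  obtain ⟨ε9', hε9', h9'⟩ := hR9 cK K11 hcK hK11
  have hcK0 : 0 < cK := by linarith
  refine ⟨min (min (min ε0 ε3) (min ε7 ε8)) (min (min ε9 ε11) (min ε9' (min (1 / 10 ^ 20)
    (1 / (10 * cK))))), ?_, ?_⟩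
  · have : 0 < 1 / (10 * cK) := by positivity
    positivity
  intro ε Hm Hp C cd hpar hle τ l r l0 r0 l1 r1 l2 r2 VL VR hp hS
  simp only [le_min_iff] at hle
  obtain ⟨⟨⟨e0, e3⟩, ⟨e7, e8⟩⟩, ⟨⟨e9, e11⟩, ⟨e9', e20, eK⟩⟩⟩ := hle
  have hε : 0 < ε := hpar.1
  have hHm : 0 < Hm := hpar.2.1
  have hρ : 0 < r - l := by linarith [hp.kids.lt]
  obtain ⟨p1, p2, p3, p4, p5, p6⟩ := r10_pow hε e20
  have hε1 : ε ≤ 1 := e20.trans (by norm_num)
  have hlen : ∀ l r : ℝ, Kids ε cK τ l r l0 r0 l1 r1 l2 r2 → l0 < r0 ∧ l2 < r2 := by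
    intro l r hk
    have hz : 0 < r - l := by linarith [hk.lt]
    have h1 := abs_le.mp hk.n0
    have h2 := abs_le.mp hk.n2
    have h4 : cK * ε ^ 3 ≤ ε / 10 := by
      have h5 : cK * ε ≤ 1 / 10 := by
        rw [le_div_iff₀ (by positivity)] at eK
        linarith
      have h6 : ε ^ 2 ≤ ε * 1 := by nlinarith
      calc cK * ε ^ 3 = (cK * ε) * ε ^ 2 := by ring
        _ ≤ (1 / 10) * (ε * 1) := mul_le_mul h5 h6 (by positivity) (by norm_num)
        _ = ε / 10 := by ring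
    have h5 : cK * ε ^ 3 * (r - l) ≤ ε / 10 * (r - l) := mul_le_mul_of_nonneg_right h4 hz.le
    have hz' : 0 < ε * (r - l) := by positivity
    have he1 : ε ≤ 1 / 10 := e20.trans (by norm_num)
    have h7 : ε * (1 / 2) * (r - l) ≤ ε * (1 + 2 * ε * τ) * (r - l) := by
      apply mul_le_mul_of_nonneg_right _ hz.le
      apply mul_le_mul_of_nonneg_left _ hε.le
      rcases hk.tt with h | h | h <;> rw [h] <;> linarith
    have h8 : ε * (1 / 2) * (r - l) ≤ ε * (1 - 2 * ε * τ) * (r - l) := by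
      apply mul_le_mul_of_nonneg_right _ hz.le
      apply mul_le_mul_of_nonneg_left _ hε.le
      rcases hk.tt with h | h | h <;> rw [h] <;> linarith
    constructor <;> nlinarith [h1.1, h2.1]
  -- a witness of the middle child
  intro a b hG hW
  obtain ⟨q1, q2, q3, q4, q5, q6, q7, q8, q9, q10, q11, q12⟩ := hP2 Hm Hp C cd hHm
  obtain ⟨G, hGa, hGb⟩ := q3 a b hG
  rw [← hGa, ← hGb] at hW
  set x := (l + r) / 2 with hx
  set ρ := r - l with hρd
  obtain ⟨-, -, y3, -, -, -⟩ := hP1 Hm Hp C cd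
  by_cases hv : ∃ V : Gap cd, ¬ NV ε x ρ V ∧ V.dist x ≤ ε ^ (-(21 / 20) : ℝ) * ρ
  · -- a nearest violator
    have hfin : {V : Gap cd | ¬ NV ε x ρ V}.Finite := by
      refine (q11 (ε ^ (2 / 5 : ℝ) / Yf cd x ρ)).subset ?_
      intro V hV
      have hY := (y3 x ρ ρ hρ (le_refl _)).1
      show |V.mu| ≤ ε ^ (2 / 5 : ℝ) / Yf cd x ρ
      rw [le_div_iff₀ hY]
      have h1 : |V.mu| * Real.sqrt (max ρ (V.dist x) / ρ) * Yf cd x (max ρ (V.dist x)) <
          ε ^ (2 / 5 : ℝ) := not_le.mp hV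
      refine le_trans ?_ h1.le
      have h2 : 1 ≤ Real.sqrt (max ρ (V.dist x) / ρ) := by
        rw [Real.one_le_sqrt, le_div_iff₀ hρ, one_mul]
        exact le_max_left _ _
      have h4 := (y3 x ρ (max ρ (V.dist x)) hρ (le_max_left _ _)).2.1
      apply mul_le_mul _ h4 hY.le (by positivity)
      calc |V.mu| = |V.mu| * 1 := (mul_one _).symm
        _ ≤ |V.mu| * Real.sqrt (max ρ (V.dist x) / ρ) :=
          mul_le_mul_of_nonneg_left h2 (abs_nonneg _)
    obtain ⟨V1, hV1, hV1d⟩ := hv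
    obtain ⟨V0, hV0, hmin⟩ := Set.exists_min_image _ (fun V : Gap cd => V.dist x) hfin ⟨V1, hV1⟩
    have hd0 : V0.dist x ≤ ε ^ (-(21 / 20) : ℝ) * ρ := (hmin V1 hV1).trans hV1d
    have h3' := (h3 ε Hm Hp C cd hpar e3 τ l r l0 r0 l1 r1 l2 r2 VL VR hp).1 V0 hV0
    have hpos : 0 < V0.dist x := by
      have : 0 < 7 / 5 * (r - l) := by linarith
      exact lt_trans this h3'
    rcases lt_or_ge V0.b x with hleft | hleft
    · have hdist : V0.dist x = x - V0.b := by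
        unfold Gap.dist
        have := V0.lt
        rw [max_eq_right (by linarith : V0.a - x ≤ x - V0.b)]
        exact max_eq_right (by linarith)
      refine r10_left h7 h8 h9 (fun ε Hm Hp C cd hpar hle τ l r l0 r0 l1 r1 l2 r2 VL VR hp =>
        (h3 ε Hm Hp C cd hpar hle τ l r l0 r0 l1 r1 l2 r2 VL VR hp).1) hpar e7 e8 e9 e3 e20 hp hS
        (D := x - V0.b) (V0 := V0) ⟨hleft, rfl, hV0, ?_⟩ ?_ G hW
      · intro V hV
        rw [← hdist]
        exact hmin V hV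
      · rw [← hdist]
        exact hd0
    · -- reflection
      have hdist : V0.dist x = V0.a - x := by
        unfold Gap.dist at hpos ⊢
        have h1 : x - V0.b ≤ 0 := by linarith
        have h2 : 0 < V0.a - x := by
          by_contra hc
          rw [not_lt] at hc
          have h4 : max 0 (max (V0.a - x) (x - V0.b)) ≤ 0 :=
            max_le (le_refl _) (max_le hc h1)
          linarith
        rw [max_eq_left (by linarith : x - V0.b ≤ V0.a - x)]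
        exact max_eq_right h2.le
      obtain ⟨cd', m1, m2, m3, e, me⟩ := hMR Hm Hp C cd hHm
      have me' : ∀ V : Gap cd, (e V).a = -V.b ∧ (e V).b = -V.a ∧ (e V).m = -V.m :=
        fun V => ⟨(me V).1, (me V).2.1, (me V).2.2.1⟩
      have hp' := r10_refl hε e0 hlen (fun ε a b l r g1 g2 g3 g4 => (h0 ε a b l r g1 g2 g3 g4).1)
        hp m2 e me'
      have hx' : (-r + -l) / 2 = -x := by rw [hx]; ring
      have hρ' : -l - -r = ρ := by rw [hρd]; ring
      have hdist' : ∀ V : Gap cd, (e V).dist (-x) = V.dist x := by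
        intro V
        obtain ⟨e1, e2, _⟩ := me' V
        unfold Gap.dist
        rw [e1, e2]
        have g1 : -V.b - -x = x - V.b := by ring
        have g2 : -x - -V.a = V.a - x := by ring
        rw [g1, g2, max_comm (x - V.b)]
      have hNV' : ∀ V : Gap cd, NV ε (-x) ρ (e V) ↔ NV ε x ρ V := by
        intro V
        unfold NV
        have g1 : |(e V).mu| = |V.mu| := by
          unfold Gap.mu
          rw [(me' V).2.2]
          push_cast
          rw [mul_neg, abs_neg]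
        rw [hdist' V, g1, m3 (-x) _ (lt_of_lt_of_le hρ (le_max_left _ _)), neg_neg]
      have hS' : PSt (-C) ε (-r) (-l) := by
        intro a b hab hwit
        have g1 : IsG C (-b) (-a) := by
          refine ⟨by linarith [hab.1], ?_, ?_, ?_⟩
          · exact Set.mem_neg.mp hab.2.2.1
          · exact Set.mem_neg.mp hab.2.1
          · intro t ht htC
            refine hab.2.2.2 (-t) ⟨by linarith [ht.2], by linarith [ht.1]⟩ ?_
            rw [Set.mem_neg, neg_neg]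
            exact htC
        apply hS (-b) (-a) g1
        have g2 := (h0 ε (-b) (-a) l r hε e0 (by linarith [hab.1]) hp.kids.lt).1
        rw [neg_neg, neg_neg] at g2
        exact g2.mpr hwit
      have hW' : Wit ε (e G).a (e G).b (-r1) (-l1) := by
        obtain ⟨e1, e2, _⟩ := me' G
        rw [e1, e2]
        refine (h0 ε G.a G.b l1 r1 hε e0 G.lt ?_).1.mp hW
        -- length of the middle child
        have h1 := abs_le.mp hp.kids.n1
        have h4 : cK * ε ^ 3 ≤ ε ^ 2 := by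
          have h5 : cK * ε ≤ 1 / 10 := by
            rw [le_div_iff₀ (by positivity)] at eK
            linarith
          calc cK * ε ^ 3 = (cK * ε) * ε ^ 2 := by ring
            _ ≤ 1 * ε ^ 2 := mul_le_mul_of_nonneg_right (by linarith) (by positivity)
            _ = ε ^ 2 := one_mul _
        have h5 : cK * ε ^ 3 * (r - l) ≤ ε ^ 2 * (r - l) := mul_le_mul_of_nonneg_right h4 hρ.le
        have h6 : 0 < ε ^ 2 * (r - l) := by positivity
        linarith [h1.1]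
      refine r10_left h7 h8 h9 (fun ε Hm Hp C cd hpar hle τ l r l0 r0 l1 r1 l2 r2 VL VR hp =>
        (h3 ε Hm Hp C cd hpar hle τ l r l0 r0 l1 r1 l2 r2 VL VR hp).1) hpar e7 e8 e9 e3 e20 hp' hS'
        (D := V0.a - x) (V0 := e V0) ⟨?_, ?_, ?_, ?_⟩ ?_ (e G) hW'
      · rw [hx', (me' V0).2.1]
        have : 0 < V0.a - x := by rw [← hdist]; exact hpos
        linarith
      · rw [hx', (me' V0).2.1]
        ring
      · rw [hx', hρ', hNV']
        exact hV0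
      · intro V' hV'
        obtain ⟨V, rfl⟩ := e.surjective V'
        rw [hx', hρ', hNV'] at hV'
        rw [hx', hdist' V, ← hdist]
        exact hmin V hV'
      · rw [hρ', ← hdist]
        exact hd0
  · -- no violator
    push Not at hv
    have hd : 0 ≤ ε ^ (-(21 / 20) : ℝ) * ρ := by positivity
    have hdle : ε ^ (-(21 / 20) : ℝ) * ρ ≤ ρ / ε ^ 3 := by
      calc ε ^ (-(21 / 20) : ℝ) * ρ ≤ 1 / ε ^ 3 * ρ := mul_le_mul_of_nonneg_right p1 hρ.le
        _ = ρ / ε ^ 3 := by ring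
    have hreg : Reg cd ε x ρ (ε ^ (-(21 / 20) : ℝ) * ρ) (fun _ => False) := by
      refine ⟨?_, ?_, ?_⟩
      · intro t ht
        apply hp.good.inn
        rw [abs_le]
        constructor <;> linarith [ht.1, ht.2]
      · intro W hW
        refine p2.trans (hp.good.big W ?_)
        unfold Gap.Meets at hW ⊢
        constructor <;> linarith [hW.1, hW.2]
      · intro W hW _
        by_contra hc
        exact absurd ((r10_meets W x _ hd).mp hW) (not_le.mpr (hv W hc))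
    obtain ⟨P0, hP0, hlaw⟩ := h11 ε Hm Hp C cd hpar e11 x ρ hρ hreg
    have hY := (y3 x ρ ρ hρ (le_refl _)).1
    have hQ : QLaw cd ε K11 x ρ P0 0 := by
      refine ⟨hP0, ?_, ?_⟩
      · rw [abs_zero]
        positivity
      · intro V v1 v2 v3
        obtain ⟨g1, g2⟩ := hlaw V v1 v2 v3
        have hnV := r10_nn hP2 hHm x ρ V
        constructor
        · have g3 : P0 * (1 - 10 * ε) ≤ P0 * (1 - ε ^ (103 / 100 : ℝ)) := by
            apply mul_le_mul_of_nonneg_left _ hP0.le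
            linarith
          have g4 : 0 ≤ K11 / ρ * nn x ρ V := by positivity
          have g5 : 0 ≤ ε ^ (11 / 10 : ℝ) * Yf cd x ρ / ρ := by positivity
          linarith
        · intro W w1 w2 w3 w4
          have g3 := g2 W w1 w2 w3 w4
          have g4 : (W.c - V.c) + 0 / (2 * ρ) * ((W.c - x) ^ 2 - (V.c - x) ^ 2) = W.c - V.c := by
            ring
          rw [g4]
          have g5 : ε ^ (103 / 100 : ℝ) * P0 * ρ ≤ ε ^ (102 / 100 : ℝ) * P0 * ρ := by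
            apply mul_le_mul_of_nonneg_right _ hρ.le
            exact mul_le_mul_of_nonneg_right p6 hP0.le
          have g6 : 0 ≤ ε ^ (11 / 10 : ℝ) * Yf cd x ρ := by positivity
          linarith
    exact h9' ε Hm Hp C cd hpar e9' τ l r l0 r0 l1 r1 l2 r2 VL VR hp P0 0 hQ G hW

end Pool.Agent.Helper36.CV
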